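import Mathlib
import Pool.Agent.Q280.JD.Kernel

/-!
Full answer to Q1 of MP_3ec6ae_nt: for every positive integer `n ≡ 1 (mod 4)` with
`(n/7) = -1` both truncated determinants `{42,-7}_n` and `{21,112}_n` vanish.
-/

namespace Pool.Agent.Results.MP_3ec6ae_nt.TruncatedJacobi

/-- `{c,d}_n`: the determinant of the matrix `((j² + c j k + d k²) / n)` of Jacobi symbols, rows
and columns indexed by `j, k = 2, 3, ..., n - 2` (here `j = a + 2`, `k = b + 2` with
`a, b = 0, ..., n - 4`). -/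
def truncDet (c d : ℤ) (n : ℕ) : ℤ :=
  Matrix.det (Matrix.of fun a b : Fin (n - 3) =>
    jacobiSym (((a : ℤ) + 2) ^ 2 + c * ((a : ℤ) + 2) * ((b : ℤ) + 2) +
      d * ((b : ℤ) + 2) ^ 2) n)

theorem result : ∀ n : ℕ, n % 4 = 1 → jacobiSym n 7 = -1 →
    truncDet 42 (-7) n = 0 ∧ truncDet 21 112 n = 0 :=
  fun n hn h7 => Pool.Agent.Q280.JD.main n hn h7

end Pool.Agent.Results.MP_3ec6ae_nt.TruncatedJacobi
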